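import Pool.Agent.Helper43.NG.Spec

/-! Part GAM of the NG project. -/

set_option autoImplicit false

namespace Pool.Agent.Helper49.NG

open scoped Pointwise commutatorElement
open Subgroup Pool.Agent.Helper43.NG

universe u

section

variable {G : Type u} [Group G]

/-- The commutators of subgroups given by generators. -/
theorem comm_closure_le {M : Subgroup G} [M.Normal] {A B : Set G}
    (h : ∀ a ∈ A, ∀ b ∈ B, ⁅a, b⁆ ∈ M) : ⁅closure A, closure B⁆ ≤ M := by
  let f := QuotientGroup.mk' M
  have hf : ∀ x : G, f x = 1 ↔ x ∈ M := fun x => QuotientGroup.eq_one_iff x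
  have h1 : ∀ x y : G, ⁅x, y⁆ ∈ M ↔ f x * f y = f y * f x := by
    intro x y
    rw [← hf, map_commutatorElement, commutatorElement_eq_one_iff_mul_comm]
  have h2 : ∀ b ∈ B, ∀ x ∈ closure A, ⁅x, b⁆ ∈ M := by
    intro b hb x hx
    induction hx using closure_induction with
    | mem x hx => exact h x hx b hb
    | one => rw [h1, map_one, one_mul, mul_one]
    | mul x y _ _ hx hy =>
      rw [h1] at hx hy ⊢
      rw [map_mul, mul_assoc, hy, ← mul_assoc, hx, mul_assoc]
    | inv x _ hx =>
      rw [h1] at hx ⊢
      rw [map_inv]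
      exact (Commute.inv_left (show Commute (f x) (f b) from hx))
  have h3 : ∀ x ∈ closure A, ∀ y ∈ closure B, ⁅x, y⁆ ∈ M := by
    intro x hx y hy
    induction hy using closure_induction with
    | mem y hy => exact h2 y hy x hx
    | one => rw [h1, map_one, one_mul, mul_one]
    | mul y z _ _ hy hz =>
      rw [h1] at hy hz ⊢
      rw [map_mul, ← mul_assoc, hy, mul_assoc, hz, mul_assoc]
    | inv y _ hy =>
      rw [h1] at hy ⊢
      rw [map_inv]
      exact (Commute.inv_right (show Commute (f x) (f y) from hy))
  exact commutator_le.2 h3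

/-- The three subgroup lemma modulo a normal subgroup. -/
theorem three_le {A B C L : Subgroup G} [L.Normal] (h1 : ⁅⁅B, C⁆, A⁆ ≤ L) (h2 : ⁅⁅C, A⁆, B⁆ ≤ L) :
    ⁅⁅A, B⁆, C⁆ ≤ L := by
  let f := QuotientGroup.mk' L
  have hf : ∀ H : Subgroup G, H.map f = ⊥ ↔ H ≤ L := by
    intro H
    rw [Subgroup.map_eq_bot_iff, QuotientGroup.ker_mk']
  rw [← hf] at h1 h2 ⊢
  rw [map_commutator, map_commutator] at h1 h2 ⊢
  exact commutator_commutator_eq_bot_of_rotate h1 h2

/-- The commutators of the terms of the lower central series. -/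
theorem lcs_comm (j : ℕ) : ∀ i : ℕ,
    ⁅(⊤ : Subgroup G).lowerCentralSeries i, (⊤ : Subgroup G).lowerCentralSeries j⁆ ≤
      (⊤ : Subgroup G).lowerCentralSeries (i + j + 1) := by
  induction j with
  | zero =>
    intro i
    rw [Subgroup.lowerCentralSeries_zero, add_zero, Subgroup.lowerCentralSeries_succ]
  | succ j ih =>
    intro i
    rw [Subgroup.lowerCentralSeries_succ, commutator_comm]
    have e : i + (j + 1) + 1 = i + j + 1 + 1 := by ring
    rw [e]
    refine three_le ?_ ?_
    · rw [commutator_comm ⊤, ← Subgroup.lowerCentralSeries_succ]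
      have h1 := ih (i + 1)
      have e2 : i + 1 + j + 1 = i + j + 1 + 1 := by ring
      rw [e2] at h1
      exact h1
    · rw [Subgroup.lowerCentralSeries_succ (S := (⊤ : Subgroup G)) (n := i + j + 1)]
      exact commutator_mono (ih i) le_rfl

end

theorem gam : S_GAM.{u} := by
  intro G _ T hT hcl k hk
  have hlet : ∀ l x, Let T l x → 1 ≤ l ∧ x ∈ (⊤ : Subgroup G).lowerCentralSeries (l - 1) := by
    intro l x h
    induction h with
    | base _ => exact ⟨le_rfl, mem_top _⟩
    | @comm i j a b ha hb i1 i2 =>
      refine ⟨by omega, ?_⟩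
      have h1 := lcs_comm (G := G) (j - 1) (i - 1) (commutator_mem_commutator i1.2 i2.2)
      have e : i - 1 + (j - 1) + 1 = i + j - 1 := by omega
      rw [e] at h1
      exact h1
  have hanti : Antitone (⊤ : Subgroup G).lowerCentralSeries := Subgroup.lowerCentralSeries_antitone _
  refine ⟨?_, ?_⟩
  · rintro x ⟨i, j, a, b, hi, hj, hij, ha, hb, rfl⟩
    have h1 := lcs_comm (G := G) (j - 1) (i - 1)
      (commutator_mem_commutator (hlet _ _ ha).2 (hlet _ _ hb).2)
    have h2 := (hlet _ _ ha).1
    have h3 := (hlet _ _ hb).1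
    exact hanti (by omega) h1
  · set N := normalClosure (DD T k) with hN
    let P : ℕ → Subgroup G := fun l => HH T k l ⊔ N
    have hPcl : ∀ l, P l = closure (EE T k l ∪ (N : Set G)) := by
      intro l
      rw [Subgroup.closure_union, closure_eq]
      rfl
    have hmono : ∀ l, P (l + 1) ≤ P l := by
      intro l
      refine sup_le_sup_right (Subgroup.closure_mono ?_) N
      rintro x ⟨i, h1, h2, h3⟩
      exact ⟨i, by omega, h2, h3⟩
    have hcomm : ∀ l, 1 ≤ l → (P (l + 1)).Normal → ⁅P l, (⊤ : Subgroup G)⁆ ≤ P (l + 1) := by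
      intro l hl hn
      rw [hPcl l, ← hcl]
      refine comm_closure_le ?_
      rintro a (⟨i, h1, h2, h3⟩ | ha) t ht
      · by_cases hi : i + 1 ≤ k
        · exact (le_sup_left : HH T k (l + 1) ≤ P (l + 1))
            (subset_closure ⟨i + 1, by omega, hi, Let.comm h3 (Let.base ht)⟩)
        · exact (le_sup_right : N ≤ P (l + 1))
            (subset_normalClosure ⟨i, 1, a, t, h2, hk, by omega, h3, Let.base ht, rfl⟩)
      · refine (le_sup_right : N ≤ P (l + 1)) ?_
        have h4 : ⁅a, t⁆ = a * (t * a⁻¹ * t⁻¹) := by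
          rw [commutatorElement_def]
          group
        rw [h4]
        exact N.mul_mem ha ((inferInstance : N.Normal).conj_mem _ (N.inv_mem ha) t)
    have hnorm : ∀ r l, 1 ≤ l → l + r = k + 1 → (P l).Normal := by
      intro r
      induction r with
      | zero =>
        intro l _ hl
        have h1 : EE T k l = ∅ := by
          rw [Set.eq_empty_iff_forall_notMem]
          rintro x ⟨i, h1, h2, _⟩
          omega
        have h2 : P l = N := by
          change closure (EE T k l) ⊔ N = N
          rw [h1, Subgroup.closure_empty, bot_sup_eq]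
        rw [h2]
        infer_instance
      | succ r ih =>
        intro l hl hlr
        have h1 := ih (l + 1) (by omega) (by omega)
        have h2 := hcomm l hl h1
        refine ⟨fun n hn g => ?_⟩
        have h3 : ⁅n, g⁆ ∈ P l := hmono l (h2 (commutator_mem_commutator hn (mem_top g)))
        have h4 : g * n * g⁻¹ = ⁅n, g⁆⁻¹ * n := by
          rw [commutatorElement_def]
          group
        rw [h4]
        exact (P l).mul_mem ((P l).inv_mem h3) hn
    have hle : ∀ l, l ≤ k → (⊤ : Subgroup G).lowerCentralSeries l ≤ P (l + 1) := by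
      intro l
      induction l with
      | zero =>
        intro _
        rw [Subgroup.lowerCentralSeries_zero, ← hcl, closure_le]
        intro t ht
        exact (le_sup_left : HH T k 1 ≤ P 1) (subset_closure ⟨1, le_rfl, hk, Let.base ht⟩)
      | succ l ih =>
        intro hl
        rw [Subgroup.lowerCentralSeries_succ]
        refine (commutator_mono (ih (by omega)) le_rfl).trans ?_
        exact hcomm (l + 1) (by omega) (hnorm (k - (l + 1)) (l + 1 + 1) (by omega) (by omega))
    have h1 : EE T k (k + 1) = ∅ := by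
      rw [Set.eq_empty_iff_forall_notMem]
      rintro x ⟨i, h1, h2, _⟩
      omega
    have h2 : P (k + 1) = N := by
      change closure (EE T k (k + 1)) ⊔ N = N
      rw [h1, Subgroup.closure_empty, bot_sup_eq]
    rw [← h2]
    exact hle k le_rfl

end Pool.Agent.Helper49.NG
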