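import Pool.Agent.Helper43.NG.Spec

/-! Part LET of the NG project. -/

set_option autoImplicit false

namespace Pool.Agent.Helper49.NG

open scoped Pointwise commutatorElement
open Subgroup Pool.Agent.Helper43.NG

universe u

theorem letp : S_LET.{u} := by
  intro G _ T h1 hT
  have pos : ∀ l x, Let T l x → 1 ≤ l := by
    intro l x h
    induction h with
    | base _ => exact le_rfl
    | comm _ _ i1 i2 => omega
  have inv : ∀ l x, Let T l x → Let T l x⁻¹ := by
    intro l x h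
    cases h with
    | base h =>
      refine Let.base ?_
      rw [← hT]
      exact Set.inv_mem_inv.2 h
    | comm ha hb =>
      rw [commutatorElement_inv, add_comm]
      exact Let.comm hb ha
  have one : ∀ l, 1 ≤ l → Let T l 1 := by
    intro l hl
    induction l, hl using Nat.le_induction with
    | base => exact Let.base h1
    | succ n hn ih =>
      have h2 := Let.comm ih (Let.base h1)
      rw [commutatorElement_self] at h2
      exact h2
  have invp : ∀ (n : ℕ) (x : G), x ∈ T ^ n → x⁻¹ ∈ T ^ n := by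
    intro n x hx
    have h2 : (T ^ n)⁻¹ = T ^ n := by rw [← inv_pow, hT]
    rw [← h2]
    exact Set.inv_mem_inv.2 hx
  have comp : ∀ (m n : ℕ) (a b : G), a ∈ T ^ m → b ∈ T ^ n → ⁅a, b⁆ ∈ T ^ (2 * (m + n)) := by
    intro m n a b ha hb
    have h2 : ⁅a, b⁆ = a * b * a⁻¹ * b⁻¹ := rfl
    have h3 : 2 * (m + n) = m + n + m + n := by ring
    rw [h2, h3, pow_add, pow_add, pow_add]
    exact Set.mul_mem_mul (Set.mul_mem_mul (Set.mul_mem_mul ha hb) (invp _ _ ha)) (invp _ _ hb)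
  have len : ∀ l x, Let T l x → ∃ n, x ∈ T ^ n ∧ 2 * n + 4 ≤ 3 * 2 ^ l := by
    intro l x h
    induction h with
    | base h => exact ⟨1, by rwa [pow_one], by norm_num⟩
    | @comm i j a b ha hb i1 i2 =>
      obtain ⟨n1, hn1, h3⟩ := i1
      obtain ⟨n2, hn2, h4⟩ := i2
      refine ⟨2 * (n1 + n2), comp _ _ _ _ hn1 hn2, ?_⟩
      have hi := pos _ _ ha
      have hj := pos _ _ hb
      have h5 : 2 ≤ 2 ^ i := by
        calc 2 = 2 ^ 1 := rfl
          _ ≤ 2 ^ i := Nat.pow_le_pow_right (by norm_num) hi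
      have h6 : 2 ≤ 2 ^ j := by
        calc 2 = 2 ^ 1 := rfl
          _ ≤ 2 ^ j := Nat.pow_le_pow_right (by norm_num) hj
      rw [pow_add]
      nlinarith [Nat.mul_le_mul h5 h6]
  have len2 : ∀ k l x, l ≤ k → Let T l x → x ∈ T ^ (3 * 2 ^ (k - 1)) := by
    intro k l x hl h
    obtain ⟨n, hn, h2⟩ := len l x h
    have hp := pos _ _ h
    refine Set.pow_subset_pow_right h1 ?_ hn
    obtain ⟨l, rfl⟩ : ∃ l', l = l' + 1 := ⟨l - 1, by omega⟩
    obtain ⟨k, rfl⟩ : ∃ k', k = k' + 1 := ⟨k - 1, by omega⟩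
    rw [pow_succ] at h2
    rw [Nat.add_sub_cancel]
    have h3 : 2 ^ l ≤ 2 ^ k := Nat.pow_le_pow_right (by norm_num) (by omega)
    omega
  refine ⟨pos, inv, one, len2, ?_⟩
  rintro k x ⟨i, j, a, b, hi, hj, hij, ha, hb, rfl⟩
  have h2 := comp _ _ _ _ (len2 k i a hi ha) (len2 k j b hj hb)
  have hp := pos _ _ ha
  obtain ⟨k, rfl⟩ : ∃ k', k = k' + 1 := ⟨k - 1, by omega⟩
  have h3 : 2 * (3 * 2 ^ (k + 1 - 1) + 3 * 2 ^ (k + 1 - 1)) = 6 * 2 ^ (k + 1) := by
    rw [Nat.add_sub_cancel, pow_succ]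
    ring
  rw [h3] at h2
  exact h2

end Pool.Agent.Helper49.NG
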